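import Mathlib

set_option autoImplicit false

open Matrix

namespace Pool.Agent.Lib.MP_7d7944_co

/-- truth tables of the `k` coordinate functions on `k`-bit numbers -/
def tabs : ℕ → ℕ → ℕ
  | 0, _ => 0
  | k + 1, j => if j = k then (2 ^ (2 ^ k) - 1) <<< (2 ^ k) else tabs k j ||| (tabs k j <<< (2 ^ k))

lemma tabs_lt (k j : ℕ) : tabs k j < 2 ^ (2 ^ k) := by
  induction k with
  | zero => simp [tabs]
  | succ k ih =>
    apply Nat.lt_pow_two_of_testBit
    intro i hi
    have h2 : 2 ^ (k + 1) = 2 ^ k + 2 ^ k := by ring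
    have h3 : ∀ n, 2 ^ k ≤ n → (tabs k j).testBit n = false := fun n hn =>
      Nat.testBit_lt_two_pow (lt_of_lt_of_le ih (Nat.pow_le_pow_right (by norm_num) hn))
    unfold tabs
    split_ifs
    · rw [Nat.testBit_shiftLeft, Nat.testBit_two_pow_sub_one]
      simp; omega
    · rw [Nat.testBit_or, Nat.testBit_shiftLeft, h3 i (by omega), h3 (i - 2 ^ k) (by omega)]
      simp

lemma tabs_surj (k : ℕ) (v : ℕ → Bool) :
    ∃ M < 2 ^ k, ∀ j < k, (tabs k j).testBit M = v j := by
  induction k with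
  | zero => exact ⟨0, by simp, by simp⟩
  | succ k ih =>
    obtain ⟨M, hM, h⟩ := ih
    have h2 : 2 ^ (k + 1) = 2 ^ k + 2 ^ k := by ring
    cases hv : v k with
    | false =>
      refine ⟨M, by omega, fun j hj => ?_⟩
      unfold tabs
      split_ifs with hjk
      · subst hjk
        rw [Nat.testBit_shiftLeft, hv]
        simp; omega
      · rw [Nat.testBit_or, Nat.testBit_shiftLeft, h j (by omega)]
        have : ¬ (M ≥ 2 ^ k) := by omega
        simp [this]
    | true =>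
      refine ⟨M + 2 ^ k, by omega, fun j hj => ?_⟩
      unfold tabs
      split_ifs with hjk
      · subst hjk
        rw [Nat.testBit_shiftLeft, hv, Nat.testBit_two_pow_sub_one]
        simp; omega
      · have h3 : (tabs k j).testBit (M + 2 ^ k) = false :=
          Nat.testBit_lt_two_pow (lt_of_lt_of_le (tabs_lt k j)
            (Nat.pow_le_pow_right (by norm_num) (by omega)))
        rw [Nat.testBit_or, Nat.testBit_shiftLeft, h3, Nat.add_sub_cancel, h j (by omega)]
        simp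

/-- the `k`-th bit as an element of `ZMod 2` -/
def bit (k N : ℕ) : ZMod 2 := if N.testBit k then 1 else 0

lemma bit_xor (k a b : ℕ) : bit k (a ^^^ b) = bit k a + bit k b := by
  unfold bit
  rw [Nat.testBit_xor]
  cases a.testBit k <;> cases b.testBit k <;> decide

lemma bit_and (k a b : ℕ) : bit k (a &&& b) = bit k a * bit k b := by
  unfold bit
  rw [Nat.testBit_and]
  cases a.testBit k <;> cases b.testBit k <;> decide

def det3N (a b c d e f g h i : ℕ) : ℕ :=
  (a &&& ((e &&& i) ^^^ (f &&& h))) ^^^ (b &&& ((d &&& i) ^^^ (f &&& g))) ^^^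
    (c &&& ((d &&& h) ^^^ (e &&& g)))

/-- bit-parallel determinant of a `4 × 4` matrix over `ZMod 2` -/
def det4N (m : Fin 4 → Fin 4 → ℕ) : ℕ :=
  (m 0 0 &&& det3N (m 1 1) (m 1 2) (m 1 3) (m 2 1) (m 2 2) (m 2 3) (m 3 1) (m 3 2) (m 3 3)) ^^^
  (m 0 1 &&& det3N (m 1 0) (m 1 2) (m 1 3) (m 2 0) (m 2 2) (m 2 3) (m 3 0) (m 3 2) (m 3 3)) ^^^
  (m 0 2 &&& det3N (m 1 0) (m 1 1) (m 1 3) (m 2 0) (m 2 1) (m 2 3) (m 3 0) (m 3 1) (m 3 3)) ^^^
  (m 0 3 &&& det3N (m 1 0) (m 1 1) (m 1 2) (m 2 0) (m 2 1) (m 2 2) (m 3 0) (m 3 1) (m 3 2))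

lemma bit_det4N (k : ℕ) (m : Fin 4 → Fin 4 → ℕ) :
    bit k (det4N m) = (Matrix.of fun i j => bit k (m i j)).det := by
  simp only [det4N, det3N, bit_xor, bit_and]
  rw [Matrix.det_succ_row_zero, Fin.sum_univ_four]
  simp only [Matrix.det_fin_three, Matrix.submatrix_apply, Matrix.of_apply, CharTwo.sub_eq_add,
    CharTwo.neg_eq, one_pow, one_mul]
  simp only [Fin.succ_zero_eq_one, Fin.succ_one_eq_two, Fin.reduceSucc, Fin.succAbove,
    Fin.castSucc_zero, Fin.reduceCastSucc, Fin.reduceLT, if_true, if_false]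
  ring

/-- basis of the spread set of a proper semifield of order 16 -/
def B : Fin 4 → Matrix (Fin 4) (Fin 4) (ZMod 2) :=
  ![!![1, 1, 1, 1; 1, 0, 1, 1; 1, 0, 0, 0; 0, 1, 0, 1],
    !![1, 1, 1, 0; 1, 1, 1, 1; 0, 1, 1, 0; 0, 0, 1, 1],
    !![1, 0, 0, 1; 1, 1, 1, 0; 1, 0, 1, 0; 1, 0, 1, 1],
    !![0, 0, 1, 0; 1, 0, 0, 1; 1, 1, 1, 1; 0, 0, 0, 1]]

/-- the spread set -/
def A (y : Fin 4 → ZMod 2) : Matrix (Fin 4) (Fin 4) (ZMod 2) := ∑ k, y k • B k

/-- the vector of bits of `t` -/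
def vec (t : ℕ) : Fin 4 → ZMod 2 := fun i => bit i t

def ones : ℕ := 2 ^ (2 ^ 16) - 1

/-- truth table of `L ↦ det (A (vec t) + L)` -/
def dTab (t : ℕ) : ℕ :=
  det4N fun i j => (if A (vec t) i j = 1 then ones else 0) ^^^ tabs 16 (4 * i + j)

/-- `(tables of at least one, at least two)` invertible matrices among the first `t` -/
def acc : ℕ → ℕ × ℕ
  | 0 => (0, 0)
  | t + 1 => ((acc t).1 ||| dTab t, (acc t).2 ||| ((acc t).1 &&& dTab t))

lemma acc_fst (t M : ℕ) (h : (acc t).1.testBit M = true) : ∃ s < t, (dTab s).testBit M = true := by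
  induction t with
  | zero => simp [acc] at h
  | succ t ih =>
    simp only [acc, Nat.testBit_or, Bool.or_eq_true] at h
    rcases h with h | h
    · obtain ⟨s, hs, h⟩ := ih h
      exact ⟨s, by omega, h⟩
    · exact ⟨t, by omega, h⟩

lemma acc_snd (t M : ℕ) (h : (acc t).2.testBit M = true) :
    ∃ s < t, ∃ r < s, (dTab s).testBit M = true ∧ (dTab r).testBit M = true := by
  induction t with
  | zero => simp [acc] at h
  | succ t ih =>
    simp only [acc, Nat.testBit_or, Nat.testBit_and, Bool.or_eq_true, Bool.and_eq_true] at h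
    rcases h with h | h
    · obtain ⟨s, hs, h⟩ := ih h
      exact ⟨s, by omega, h⟩
    · obtain ⟨r, hr, h'⟩ := acc_fst t M h.1
      exact ⟨t, by omega, r, hr, h.2, h'⟩

lemma acc_all : (acc 16).2 = ones := by decide +kernel

lemma vec_inj : ∀ s < 16, ∀ r < s, vec s ≠ vec r := by decide +kernel

lemma det_of_tab (o M : ℕ) (T : Fin 4 → Fin 4 → ℕ) (P L : Matrix (Fin 4) (Fin 4) (ZMod 2))
    (ho : o.testBit M = true) (hT : ∀ i j, (T i j).testBit M = decide (L i j = 1))
    (h : (det4N fun i j => (if P i j = 1 then o else 0) ^^^ T i j).testBit M = true) :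
    (P + L).det = 1 := by
  have h1 : bit M (det4N fun i j => (if P i j = 1 then o else 0) ^^^ T i j) = 1 := by
    simp [bit, h]
  rw [bit_det4N] at h1
  refine Eq.trans (congrArg Matrix.det ?_) h1
  ext i j
  rw [Matrix.add_apply, Matrix.of_apply, bit_xor]
  have hz : ∀ z : ZMod 2, z = if z = 1 then 1 else 0 := by decide
  have e1 : P i j = bit M (if P i j = 1 then o else 0) := by
    by_cases hA : P i j = 1
    · simp [hA, bit, ho]
    · rw [hz (P i j)]; simp [hA, bit]
  have e2 : L i j = bit M (T i j) := by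
    rw [bit, hT]
    by_cases hA : L i j = 1
    · simp [hA]
    · rw [hz (L i j)]; simp [hA]
  rw [← e1, ← e2]

lemma two_invertible (L : Matrix (Fin 4) (Fin 4) (ZMod 2)) :
    ∃ y y' : Fin 4 → ZMod 2, y ≠ y' ∧ (A y + L).det = 1 ∧ (A y' + L).det = 1 := by
  obtain ⟨M, hM, h⟩ := tabs_surj 16
    (fun n => decide (L ⟨n / 4 % 4, Nat.mod_lt _ (by norm_num)⟩
      ⟨n % 4, Nat.mod_lt _ (by norm_num)⟩ = 1))
  have hones : ones.testBit M = true := by
    unfold ones
    rw [Nat.testBit_two_pow_sub_one]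
    exact decide_eq_true hM
  have hd : ∀ t, (dTab t).testBit M = true → (A (vec t) + L).det = 1 := by
    intro t ht
    refine det_of_tab ones M (fun i j => tabs 16 (4 * i + j)) _ L hones ?_ ht
    intro i j
    have hi := i.2
    have hj := j.2
    have e1 : (4 * i.1 + j.1) / 4 % 4 = i.1 := by omega
    have e2 : (4 * i.1 + j.1) % 4 = j.1 := by omega
    rw [h _ (by omega)]
    simp only [e1, e2]
  obtain ⟨s, hs, r, hr, h1, h2⟩ := acc_snd 16 M (by rw [acc_all]; exact hones)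
  exact ⟨vec s, vec r, vec_inj s hs r hr, hd s h1, hd r h2⟩

lemma det_A : ∀ y : Fin 4 → ZMod 2, y ≠ 0 → (A y).det = 1 := by
  intro y hy
  have h : ∀ a b c d : ZMod 2, ![a, b, c, d] ≠ 0 →
      bit 0 (det4N fun i j => if A ![a, b, c, d] i j = 1 then 1 else 0) = 1 := by
    decide +kernel
  have hy' : y = ![y 0, y 1, y 2, y 3] := by
    ext i; fin_cases i <;> rfl
  have h1 := h (y 0) (y 1) (y 2) (y 3) (hy' ▸ hy)
  rw [← hy', bit_det4N] at h1
  refine Eq.trans (congrArg Matrix.det ?_) h1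
  ext i j
  have hz : ∀ z : ZMod 2, z = bit 0 (if z = 1 then 1 else 0) := by decide
  rw [Matrix.of_apply]
  exact hz _

end Pool.Agent.Lib.MP_7d7944_co
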