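import Mathlib

set_option autoImplicit false
open Finset Matrix

namespace Pool.Agent.Lib.MP_7d7944_co.Three
noncomputable section

/-- sign character of the field with two elements -/
def ch (t : ZMod 2) : ℝ := if t = 0 then 1 else -1

lemma two_cases (t : ZMod 2) : t = 0 ∨ t = 1 := by revert t; decide

lemma ch_zero : ch 0 = 1 := by simp [ch]
lemma ch_one : ch 1 = -1 := by simp [ch]

lemma ch_add (s t : ZMod 2) : ch (s + t) = ch s * ch t := by
  have h : (1 : ZMod 2) + 1 = 0 := by decide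
  rcases two_cases s with rfl | rfl <;> rcases two_cases t with rfl | rfl <;>
    simp [h, ch_zero, ch_one]

lemma ch_mul_self (t : ZMod 2) : ch t * ch t = 1 := by
  rcases two_cases t with rfl | rfl <;> simp [ch_zero, ch_one]

abbrev V (n : ℕ) : Type := Fin n → ZMod 2

variable {n : ℕ}

lemma add_self (x : V n) : x + x = 0 := by
  funext i; exact CharTwo.add_self_eq_zero _

lemma card_V : (Fintype.card (V n) : ℝ) = 2 ^ n := by simp

lemma sum_ch (u : V n) : ∑ x : V n, ch (u ⬝ᵥ x) = if u = 0 then (2 : ℝ) ^ n else 0 := by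
  split_ifs with h
  · simp [h, ch_zero]
  · obtain ⟨i, hi⟩ := Function.ne_iff.mp h
    have h1 : u i = 1 := (two_cases (u i)).resolve_left hi
    have h2 : ∑ x : V n, ch (u ⬝ᵥ x) = ∑ x : V n, ch (u ⬝ᵥ (x + Pi.single i 1)) :=
      (Equiv.sum_comp (Equiv.addRight (Pi.single i 1 : V n)) (fun x => ch (u ⬝ᵥ x))).symm
    have h3 : ∀ x : V n, ch (u ⬝ᵥ (x + Pi.single i 1)) = - ch (u ⬝ᵥ x) := by
      intro x
      rw [dotProduct_add, ch_add, dotProduct_single, h1, mul_one, ch_one]; ring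
    simp only [h3, Finset.sum_neg_distrib] at h2
    linarith

/-- Walsh transform -/
def W (f : V n → ℝ) (u : V n) : ℝ := ∑ x, f x * ch (u ⬝ᵥ x)

lemma add_eq_zero_iff (x y : V n) : x + y = 0 ↔ y = x := by
  constructor
  · intro h
    have := add_self x
    linear_combination h - this
  · rintro rfl; exact add_self _

lemma inv_W (f : V n → ℝ) (x : V n) : ∑ u, W f u * ch (u ⬝ᵥ x) = 2 ^ n * f x := by
  have h : ∀ u, W f u * ch (u ⬝ᵥ x) = ∑ y, f y * ch ((x + y) ⬝ᵥ u) := by
    intro u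
    rw [W, Finset.sum_mul]
    refine Finset.sum_congr rfl fun y _ => ?_
    rw [add_dotProduct, ch_add, dotProduct_comm x, dotProduct_comm y]; ring
  simp only [h]
  rw [Finset.sum_comm]
  simp only [← Finset.mul_sum, sum_ch, add_eq_zero_iff]
  simp [mul_comm]

lemma pars (f g : V n → ℝ) : ∑ u, W f u * W g u = 2 ^ n * ∑ x, f x * g x := by
  have h : ∀ u, W f u * W g u = ∑ x, g x * (W f u * ch (u ⬝ᵥ x)) := by
    intro u
    conv_lhs => rw [W.eq_1 g, Finset.mul_sum]
    exact Finset.sum_congr rfl fun x _ => by ring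
  simp only [h]
  rw [Finset.sum_comm, Finset.mul_sum]
  refine Finset.sum_congr rfl fun x _ => ?_
  rw [← Finset.mul_sum, inv_W]; ring

lemma W_shift (h : V n → ℝ) (u v : V n) :
    W h (u + v) = W (fun x => h x * ch (u ⬝ᵥ x)) v := by
  unfold W
  refine Finset.sum_congr rfl fun x _ => ?_
  rw [add_dotProduct, ch_add]; ring

lemma conv (g h : V n → ℝ) (u : V n) :
    ∑ v, W g v * W h (u + v) = 2 ^ n * W (fun x => g x * h x) u := by
  simp only [W_shift h u]
  rw [pars, W]
  congr 1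
  exact Finset.sum_congr rfl fun x _ => by ring

lemma tri (f g h : V n → ℝ) :
    ∑ u, ∑ v, W f u * W g v * W h (u + v) = 2 ^ n * 2 ^ n * ∑ x, f x * g x * h x := by
  have h1 : ∀ u, ∑ v, W f u * W g v * W h (u + v)
      = 2 ^ n * (W f u * W (fun x => g x * h x) u) := by
    intro u
    simp only [mul_assoc]
    rw [← Finset.mul_sum, conv]; ring
  simp only [h1]
  rw [← Finset.mul_sum, pars, ← mul_assoc]
  congr 1
  exact Finset.sum_congr rfl fun x _ => by ring

lemma quad (f g h k : V n → ℝ) :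
    ∑ u, ∑ v, ∑ w, W f u * W g v * W h w * W k (u + v + w)
      = 2 ^ n * 2 ^ n * 2 ^ n * ∑ x, f x * g x * h x * k x := by
  have h1 : ∀ u v, ∑ w, W f u * W g v * W h w * W k (u + v + w)
      = 2 ^ n * (W f u * W g v * W (fun x => h x * k x) (u + v)) := by
    intro u v
    have : ∀ w, W f u * W g v * W h w * W k (u + v + w)
        = (W f u * W g v) * (W h w * W k (u + v + w)) := fun w => by ring
    simp only [this]
    rw [← Finset.mul_sum, conv]; ring
  simp only [h1, ← Finset.mul_sum]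
  rw [tri]
  have : ∑ x, f x * g x * (h x * k x) = ∑ x, f x * g x * h x * k x :=
    Finset.sum_congr rfl fun x _ => by ring
  rw [this]; ring

/-- the bilinear bound by the largest Walsh coefficient -/
lemma gam (g₁ g₂ g₃ : V n → ℝ) (h₁ : ∀ x, g₁ x * g₁ x = 1) (h₂ : ∀ x, g₂ x * g₂ x = 1)
    (M : ℝ) (hM : ∀ l, |W g₃ l| ≤ M) :
    |∑ x, ∑ y, g₁ x * g₂ y * g₃ (x + y)| ≤ M * 2 ^ n := by
  have hN : (0 : ℝ) < 2 ^ n := by positivity
  have e1 : 2 ^ n * ∑ x, ∑ y, g₁ x * g₂ y * g₃ (x + y) = ∑ l, W g₃ l * (W g₁ l * W g₂ l) := by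
    have h : ∀ l, W g₃ l * (W g₁ l * W g₂ l)
        = ∑ x, ∑ y, g₁ x * g₂ y * (W g₃ l * ch (l ⬝ᵥ (x + y))) := by
      intro l
      rw [W.eq_1 g₁, W.eq_1 g₂, Finset.sum_mul_sum, Finset.mul_sum]
      refine Finset.sum_congr rfl fun x _ => ?_
      rw [Finset.mul_sum]
      refine Finset.sum_congr rfl fun y _ => ?_
      rw [dotProduct_add, ch_add]; ring
    simp only [h]
    symm
    rw [Finset.sum_comm, Finset.mul_sum]
    refine Finset.sum_congr rfl fun x _ => ?_
    rw [Finset.sum_comm, Finset.mul_sum]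
    refine Finset.sum_congr rfl fun y _ => ?_
    rw [← Finset.mul_sum, inv_W]; ring
  have p1 : ∑ l, W g₁ l * W g₁ l = 2 ^ n * 2 ^ n := by rw [pars]; simp [h₁]
  have p2 : ∑ l, W g₂ l * W g₂ l = 2 ^ n * 2 ^ n := by rw [pars]; simp [h₂]
  have hM0 : 0 ≤ M := (abs_nonneg _).trans (hM 0)
  have e2 : |∑ l, W g₃ l * (W g₁ l * W g₂ l)| ≤ M * (2 ^ n * 2 ^ n) := by
    refine (Finset.abs_sum_le_sum_abs _ _).trans ?_
    have : ∀ l ∈ (univ : Finset (V n)), |W g₃ l * (W g₁ l * W g₂ l)|
        ≤ M / 2 * (W g₁ l * W g₁ l + W g₂ l * W g₂ l) := by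
      intro l _
      rw [abs_mul]
      have h3 : |W g₁ l * W g₂ l| ≤ (W g₁ l * W g₁ l + W g₂ l * W g₂ l) / 2 := by
        rw [abs_le]
        constructor
        · nlinarith [sq_nonneg (W g₁ l + W g₂ l)]
        · nlinarith [sq_nonneg (W g₁ l - W g₂ l)]
      calc _ ≤ M * ((W g₁ l * W g₁ l + W g₂ l * W g₂ l) / 2) :=
            mul_le_mul (hM l) h3 (abs_nonneg _) hM0
        _ = _ := by ring
    refine (Finset.sum_le_sum this).trans (le_of_eq ?_)
    rw [← Finset.mul_sum, Finset.sum_add_distrib, p1, p2]; ring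
  rw [← e1, abs_mul, abs_of_pos hN] at e2
  have : (2 : ℝ) ^ n * |∑ x, ∑ y, g₁ x * g₂ y * g₃ (x + y)| ≤ 2 ^ n * (M * 2 ^ n) := by
    linarith
  exact le_of_mul_le_mul_left this hN

/-- signs with balanced derivatives -/
def Bal (f : V n → ℝ) : Prop :=
  (∀ x, f x * f x = 1) ∧ ∀ l : V n, l ≠ 0 → ∑ x, f (x + l) * f x = 0

lemma W_sq {f : V n → ℝ} (h : Bal f) (u : V n) : W f u * W f u = 2 ^ n := by
  have h1 : W f u * W f u = ∑ l, (∑ x, f (x + l) * f x) * ch (u ⬝ᵥ l) := by
    simp only [Finset.sum_mul]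
    rw [Finset.sum_comm, W, Finset.sum_mul_sum]
    refine Finset.sum_congr rfl fun x _ => ?_
    rw [← Equiv.sum_comp (Equiv.addLeft x)]
    refine Finset.sum_congr rfl fun l _ => ?_
    simp only [Equiv.coe_addLeft]
    rw [dotProduct_add, ch_add]
    have := ch_mul_self (u ⬝ᵥ x)
    linear_combination (f x * f (x + l) * ch (u ⬝ᵥ l)) * this
  rw [h1, Finset.sum_eq_single 0]
  · simp [h.1, ch_zero]
  · intro l _ hl; rw [h.2 l hl, zero_mul]
  · simp

lemma sq_one {a : ℝ} (h : a * a = 1) : a = 1 ∨ a = -1 := mul_self_eq_one_iff.mp h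

lemma amb {f g : V n → ℝ} (hn : 2 ≤ n) (hf : ∀ x, f x * f x = 1) (hg : Bal g) (l z : V n) :
    |∑ x, f (x + l) * (f x * g x) * ch (z ⬝ᵥ x)| ≤ 2 ^ n / 2 := by
  have hN : (4 : ℝ) ≤ 2 ^ n := by
    calc (4 : ℝ) = 2 ^ 2 := by norm_num
      _ ≤ 2 ^ n := pow_le_pow_right₀ (by norm_num) hn
  by_cases hl : l = 0
  · have h1 : ∑ x, f (x + l) * (f x * g x) * ch (z ⬝ᵥ x) = W g z := by
      refine Finset.sum_congr rfl fun x _ => ?_
      rw [hl, add_zero]
      linear_combination (g x * ch (z ⬝ᵥ x)) * hf x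
    rw [h1]
    have h2 := W_sq hg z
    apply abs_le_of_sq_le_sq' _ (by positivity) |> fun h => abs_le.mpr h
    nlinarith
  · set v : V n → ℝ := fun x => g x * ch (z ⬝ᵥ x) with hv
    have hv1 : ∀ x, v x * v x = 1 := by
      intro x
      have h1 := hg.1 x
      have h2 := ch_mul_self (z ⬝ᵥ x)
      simp only [hv]
      linear_combination (ch (z ⬝ᵥ x) * ch (z ⬝ᵥ x)) * h1 + h2
    have hv2 : ∑ x, v (x + l) * v x = 0 := by
      have : ∀ x, v (x + l) * v x = ch (z ⬝ᵥ l) * (g (x + l) * g x) := by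
        intro x
        simp only [hv]
        rw [dotProduct_add, ch_add]
        have h2 := ch_mul_self (z ⬝ᵥ x)
        linear_combination (g (x + l) * g x * ch (z ⬝ᵥ l)) * h2
      simp only [this]
      rw [← Finset.mul_sum, hg.2 l hl, mul_zero]
    have h1 : ∑ x, f (x + l) * (f x * g x) * ch (z ⬝ᵥ x) = ∑ x, f (x + l) * f x * v x :=
      Finset.sum_congr rfl fun x _ => by simp only [hv]; ring
    have h2 : ∑ x, f (x + l) * f x * v x = ∑ x, f (x + l) * f x * v (x + l) := by
      rw [← Equiv.sum_comp (Equiv.addRight l)]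
      refine Finset.sum_congr rfl fun x _ => ?_
      simp only [Equiv.coe_addRight]
      rw [add_assoc, add_self, add_zero]; ring
    have h3 : |∑ x, f (x + l) * f x * (v x + v (x + l))| ≤ 2 ^ n := by
      refine (Finset.abs_sum_le_sum_abs _ _).trans ?_
      have : ∀ x, |f (x + l) * f x * (v x + v (x + l))| = 1 + v (x + l) * v x := by
        intro x
        rcases sq_one (hf (x + l)) with a | a <;> rcases sq_one (hf x) with b | b <;>
          rcases sq_one (hv1 x) with c | c <;> rcases sq_one (hv1 (x + l)) with d | d <;>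
          rw [a, b, c, d] <;> norm_num
      simp only [this]
      rw [Finset.sum_add_distrib, hv2]
      simp
    simp only [mul_add, Finset.sum_add_distrib] at h3
    rw [← h2, ← two_mul, abs_mul] at h3
    rw [h1]
    norm_num at h3
    linarith

lemma W_pair (f g : V n → ℝ) (z l : V n) :
    W (fun w => W f w * W g (w + z)) l = 2 ^ n * ∑ x, f (x + l) * g x * ch (z ⬝ᵥ x) := by
  have h : ∀ w, W f w * W g (w + z) * ch (l ⬝ᵥ w)
      = ∑ x, g x * ch (z ⬝ᵥ x) * (W f w * ch (w ⬝ᵥ (x + l))) := by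
    intro w
    rw [W.eq_1 g, Finset.mul_sum, Finset.sum_mul]
    refine Finset.sum_congr rfl fun x _ => ?_
    rw [add_dotProduct, dotProduct_add, ch_add, ch_add, dotProduct_comm l]; ring
  rw [W]
  simp only [h]
  rw [Finset.sum_comm, Finset.mul_sum]
  refine Finset.sum_congr rfl fun x _ => ?_
  rw [← Finset.mul_sum, inv_W]; ring

lemma sum_bij3 (p q r : V n × V n × V n → V n)
    (h : Function.Injective fun t => (p t, q t, r t)) (G : V n → V n → V n → ℝ) :
    ∑ t, G (p t) (q t) (r t) = ∑ u, ∑ v, ∑ w, G u v w := by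
  have hb : Function.Bijective fun t => (p t, q t, r t) :=
    Finite.injective_iff_bijective.mp h
  have := hb.sum_comp (fun t : V n × V n × V n => G t.1 t.2.1 t.2.2)
  rw [this, Fintype.sum_prod_type]
  refine Finset.sum_congr rfl fun u _ => ?_
  rw [Fintype.sum_prod_type]

/-- normalised Walsh transform -/
def S (R : ℝ) (f : V n → ℝ) (u : V n) : ℝ := W f u / R

lemma S_sq {R : ℝ} (hR : R * R = 2 ^ n) {f : V n → ℝ} (h : Bal f) (u : V n) :
    S R f u * S R f u = 1 := by
  have hN : (0 : ℝ) < 2 ^ n := by positivity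
  unfold S
  rw [div_mul_div_comm, W_sq h, hR, div_self hN.ne']

lemma line_sum {R : ℝ} (hR : R * R = 2 ^ n) (f g h : V n → ℝ) (e : ∀ x, f x * g x * h x = 1)
    (p q r w : V n × V n × V n → V n) (hi : Function.Injective fun t => (p t, q t, r t))
    (hw : ∀ t, w t = p t + q t) :
    ∑ t, S R f (p t) * S R g (q t) * S R h (w t) = R ^ 5 := by
  have hN : (0 : ℝ) < 2 ^ n := by positivity
  have hR0 : R ≠ 0 := by rintro rfl; simp at hR; linarith
  simp only [hw]
  rw [sum_bij3 p q r hi (fun u v _ => S R f u * S R g v * S R h (u + v))]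
  have h1 : ∀ u v, ∑ _w : V n, S R f u * S R g v * S R h (u + v)
      = 2 ^ n / R ^ 3 * (W f u * W g v * W h (u + v)) := by
    intro u v
    rw [Finset.sum_const, Finset.card_univ, nsmul_eq_mul, card_V]
    unfold S
    field_simp
  simp only [h1, ← Finset.mul_sum]
  rw [tri]
  simp only [e]
  rw [Finset.sum_const, Finset.card_univ, nsmul_eq_mul, card_V, ← hR]
  field_simp

lemma quad_sum {R : ℝ} (hR : R * R = 2 ^ n) (f g h k : V n → ℝ)
    (e : ∀ x, f x * g x * h x * k x = 1)
    (p q r w : V n × V n × V n → V n) (hi : Function.Injective fun t => (p t, q t, r t))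
    (hw : ∀ t, w t = p t + q t + r t) :
    ∑ t, S R f (p t) * S R g (q t) * S R h (r t) * S R k (w t) = R ^ 4 := by
  have hN : (0 : ℝ) < 2 ^ n := by positivity
  have hR0 : R ≠ 0 := by rintro rfl; simp at hR; linarith
  simp only [hw]
  rw [sum_bij3 p q r hi (fun u v w => S R f u * S R g v * S R h w * S R k (u + v + w))]
  have h1 : ∀ u v w, S R f u * S R g v * S R h w * S R k (u + v + w)
      = 1 / R ^ 4 * (W f u * W g v * W h w * W k (u + v + w)) := by
    intro u v w
    unfold S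
    field_simp
  simp only [h1, ← Finset.mul_sum]
  rw [quad]
  simp only [e]
  rw [Finset.sum_const, Finset.card_univ, nsmul_eq_mul, card_V, ← hR]
  field_simp

lemma seven_sum {R : ℝ} (hn : 2 ≤ n) (hR : R * R = 2 ^ n) (a b c d e f g : V n → ℝ)
    (ha : Bal a) (hb : Bal b) (hc : Bal c) (hd : Bal d) (he : Bal e) (hf : Bal f)
    (hg : ∀ x, g x = c x * d x) :
    |∑ t : V n × V n × V n, S R a t.1 * S R b t.2.1 * S R c (t.1 + t.2.1) * S R d t.2.2 *
      S R e (t.1 + t.2.2) * S R f (t.2.1 + t.2.2) * S R g (t.1 + t.2.1 + t.2.2)| ≤ R ^ 6 / 2 := by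
  have hN : (0 : ℝ) < 2 ^ n := by positivity
  have hR0 : R ≠ 0 := by rintro rfl; simp at hR; linarith
  have h0 := sum_bij3 (n := n) (fun t => t.2.2) (fun t => t.1) (fun t => t.2.1)
    (by rintro ⟨x, y, z⟩ ⟨x', y', z'⟩ h; simp only [Prod.mk.injEq] at h ⊢; tauto)
    (fun z x y => S R a x * S R b y * S R c (x + y) * S R d z *
      S R e (x + z) * S R f (y + z) * S R g (x + y + z))
  rw [h0]
  refine (Finset.abs_sum_le_sum_abs _ _).trans ?_
  have h1 : ∀ z ∈ (univ : Finset (V n)), |∑ x, ∑ y, S R a x * S R b y * S R c (x + y) * S R d z *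
      S R e (x + z) * S R f (y + z) * S R g (x + y + z)| ≤ 2 ^ n / 2 * 2 ^ n := by
    intro z _
    have h2 := gam (fun x => S R a x * S R e (x + z) * S R d z)
      (fun y => S R b y * S R f (y + z)) (fun w => S R c w * S R g (w + z))
      (fun x => by
        have h3 := S_sq hR ha x
        have h4 := S_sq hR he (x + z)
        have h5 := S_sq hR hd z
        calc _ = (S R a x * S R a x) * (S R e (x + z) * S R e (x + z)) * (S R d z * S R d z) := by
              ring
          _ = 1 := by rw [h3, h4, h5]; ring)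
      (fun y => by
        have h3 := S_sq hR hb y
        have h4 := S_sq hR hf (y + z)
        calc _ = (S R b y * S R b y) * (S R f (y + z) * S R f (y + z)) := by ring
          _ = 1 := by rw [h3, h4]; ring)
      (2 ^ n / 2) (fun l => by
        have h3 : W (fun w => S R c w * S R g (w + z)) l
            = 1 / 2 ^ n * W (fun w => W c w * W g (w + z)) l := by
          unfold W S
          rw [Finset.mul_sum]
          refine Finset.sum_congr rfl fun w _ => ?_
          rw [← hR]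
          unfold W
          field_simp
        rw [h3, W_pair, ← mul_assoc, one_div_mul_cancel hN.ne', one_mul]
        simp only [hg]
        exact amb hn hc.1 hd l z)
    refine le_trans (le_of_eq ?_) h2
    congr 1
    exact Finset.sum_congr rfl fun x _ => Finset.sum_congr rfl fun y _ => by ring
  refine (Finset.sum_le_sum h1).trans (le_of_eq ?_)
  rw [Finset.sum_const, Finset.card_univ, nsmul_eq_mul, card_V, ← hR]; ring

lemma expand (ε a b c d e f g : ℝ) (hε : ε * ε = 1) (ha : a * a = 1) (hb : b * b = 1)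
    (hc : c * c = 1) (hd : d * d = 1) :
    (1 + ε * (a * b * c)) * (1 + ε * (a * d * e)) * (1 + ε * (b * d * f)) * (1 + ε * (c * d * g))
      = 1 + ε * (a * b * c + a * d * e + b * d * f + c * d * g + c * e * f + b * e * g + a * f * g)
        + (b * c * d * e + a * c * d * f + a * b * d * g + a * b * e * f + a * c * e * g
          + b * c * f * g + d * e * f * g) + ε * (a * b * c * d * e * f * g) := by
  rcases sq_one hε with rfl | rfl <;> rcases sq_one ha with rfl | rfl <;>
    rcases sq_one hb with rfl | rfl <;> rcases sq_one hc with rfl | rfl <;>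
    rcases sq_one hd with rfl | rfl <;> ring

lemma inj_of (p q r : V n × V n × V n → V n) (A B C : V n → V n → V n → V n)
    (h : ∀ t, A (p t) (q t) (r t) = t.1 ∧ B (p t) (q t) (r t) = t.2.1 ∧
      C (p t) (q t) (r t) = t.2.2) : Function.Injective fun t => (p t, q t, r t) := by
  intro t t' h'
  simp only [Prod.mk.injEq] at h'
  obtain ⟨h1, h2, h3⟩ := h'
  obtain ⟨a1, a2, a3⟩ := h t
  obtain ⟨b1, b2, b3⟩ := h t'
  rw [h1, h2, h3] at a1 a2 a3
  exact Prod.ext (a1.symm.trans b1) (Prod.ext (a2.symm.trans b2) (a3.symm.trans b3))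

theorem exists_rows {R ε : ℝ} (hn : 2 ≤ n) (hR : R * R = 2 ^ n) (h16 : 16 ≤ R) (hε : ε * ε = 1)
    (a b c d e f g : V n → ℝ) (ha : Bal a) (hb : Bal b) (hc : Bal c) (hd : Bal d) (he : Bal e)
    (hf : Bal f) (hg : Bal g) (ec : ∀ x, c x = a x * b x) (ee : ∀ x, e x = a x * d x)
    (ef : ∀ x, f x = b x * d x) (eg : ∀ x, g x = c x * d x) :
    ∃ x y z : V n, S R a x * S R b y * S R c (x + y) = ε ∧ S R a x * S R d z * S R e (x + z) = ε ∧
      S R b y * S R d z * S R f (y + z) = ε ∧ S R c (x + y) * S R d z * S R g (x + y + z) = ε := by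
  by_contra hcon
  have z0 : ∀ t : V n × V n × V n,
      (1 + ε * (S R a t.1 * S R b t.2.1 * S R c (t.1 + t.2.1))) *
      (1 + ε * (S R a t.1 * S R d t.2.2 * S R e (t.1 + t.2.2))) *
      (1 + ε * (S R b t.2.1 * S R d t.2.2 * S R f (t.2.1 + t.2.2))) *
      (1 + ε * (S R c (t.1 + t.2.1) * S R d t.2.2 * S R g (t.1 + t.2.1 + t.2.2))) = 0 := by
    rintro ⟨x, y, z⟩
    have key : ∀ u v w : ℝ, u * u = 1 → v * v = 1 → w * w = 1 → 1 + ε * (u * v * w) ≠ 0 →
        u * v * w = ε := by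
      intro u v w hu hv hw h
      rcases sq_one hε with rfl | rfl <;> rcases sq_one hu with rfl | rfl <;>
        rcases sq_one hv with rfl | rfl <;> rcases sq_one hw with rfl | rfl <;>
        first | (norm_num; done) | (exfalso; apply h; norm_num)
    by_contra h
    simp only [mul_eq_zero, not_or] at h
    obtain ⟨⟨⟨h1, h2⟩, h3⟩, h4⟩ := h
    exact hcon ⟨x, y, z, key _ _ _ (S_sq hR ha _) (S_sq hR hb _) (S_sq hR hc _) h1,
      key _ _ _ (S_sq hR ha _) (S_sq hR hd _) (S_sq hR he _) h2,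
      key _ _ _ (S_sq hR hb _) (S_sq hR hd _) (S_sq hR hf _) h3,
      key _ _ _ (S_sq hR hc _) (S_sq hR hd _) (S_sq hR hg _) h4⟩
  have z1 := Finset.sum_eq_zero (s := univ) fun t _ => z0 t
  simp only [expand ε _ _ _ _ _ _ _ hε (S_sq hR ha _) (S_sq hR hb _) (S_sq hR hc _)
    (S_sq hR hd _), Finset.sum_add_distrib, ← Finset.mul_sum] at z1
  have s2 : ∀ x : V n, x + x = 0 := add_self
  have ea := ha.1
  have eb := hb.1
  have ed := hd.1
  have vals : ∀ x, (a x = 1 ∨ a x = -1) ∧ (b x = 1 ∨ b x = -1) ∧ (d x = 1 ∨ d x = -1) :=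
    fun x => ⟨sq_one (ea x), sq_one (eb x), sq_one (ed x)⟩
  have pt : ∀ x, a x * b x * c x = 1 ∧ a x * d x * e x = 1 ∧ b x * d x * f x = 1 ∧
      c x * d x * g x = 1 ∧ c x * e x * f x = 1 ∧ b x * e x * g x = 1 ∧ a x * f x * g x = 1 ∧
      b x * c x * d x * e x = 1 ∧ a x * c x * d x * f x = 1 ∧ a x * b x * d x * g x = 1 ∧
      a x * b x * e x * f x = 1 ∧ a x * c x * e x * g x = 1 ∧ b x * c x * f x * g x = 1 ∧
      d x * e x * f x * g x = 1 := by
    intro x
    rw [eg, ec, ee, ef]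
    obtain ⟨h1, h2, h3⟩ := vals x
    rcases h1 with h1 | h1 <;> rcases h2 with h2 | h2 <;> rcases h3 with h3 | h3 <;>
      rw [h1, h2, h3] <;> norm_num
  have l1 := line_sum hR a b c (fun x => (pt x).1) (fun t => t.1) (fun t => t.2.1)
    (fun t => t.2.2) (fun t => t.1 + t.2.1)
    (inj_of _ _ _ (fun u _ _ => u) (fun _ v _ => v) (fun _ _ w => w) (fun _ => by simp))
    (fun _ => rfl)
  have l2 := line_sum hR a d e (fun x => (pt x).2.1) (fun t => t.1) (fun t => t.2.2)
    (fun t => t.2.1) (fun t => t.1 + t.2.2)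
    (inj_of _ _ _ (fun u _ _ => u) (fun _ _ w => w) (fun _ v _ => v) (fun _ => by simp))
    (fun _ => rfl)
  have l3 := line_sum hR b d f (fun x => (pt x).2.2.1) (fun t => t.2.1) (fun t => t.2.2)
    (fun t => t.1) (fun t => t.2.1 + t.2.2)
    (inj_of _ _ _ (fun _ _ w => w) (fun u _ _ => u) (fun _ v _ => v) (fun _ => by simp))
    (fun _ => rfl)
  have l4 := line_sum hR c d g (fun x => (pt x).2.2.2.1) (fun t => t.1 + t.2.1) (fun t => t.2.2)
    (fun t => t.1) (fun t => t.1 + t.2.1 + t.2.2)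
    (inj_of _ _ _ (fun _ _ w => w) (fun u _ w => u - w) (fun _ v _ => v) (fun _ => by simp))
    (fun _ => rfl)
  have l5 := line_sum hR c e f (fun x => (pt x).2.2.2.2.1) (fun t => t.1 + t.2.1)
    (fun t => t.1 + t.2.2) (fun t => t.1) (fun t => t.2.1 + t.2.2)
    (inj_of _ _ _ (fun _ _ w => w) (fun u _ w => u - w) (fun _ v w => v - w) (fun _ => by simp))
    (fun t => by linear_combination (-1 : V n) * s2 t.1)
  have l6 := line_sum hR b e g (fun x => (pt x).2.2.2.2.2.1) (fun t => t.2.1)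
    (fun t => t.1 + t.2.2) (fun t => t.1) (fun t => t.1 + t.2.1 + t.2.2)
    (inj_of _ _ _ (fun _ _ w => w) (fun u _ _ => u) (fun _ v w => v - w) (fun _ => by simp))
    (fun t => by ring)
  have l7 := line_sum hR a f g (fun x => (pt x).2.2.2.2.2.2.1) (fun t => t.1)
    (fun t => t.2.1 + t.2.2) (fun t => t.2.1) (fun t => t.1 + t.2.1 + t.2.2)
    (inj_of _ _ _ (fun u _ _ => u) (fun _ _ w => w) (fun _ v w => v - w) (fun _ => by simp))
    (fun t => by ring)
  have q1 := quad_sum hR b c d e (fun x => (pt x).2.2.2.2.2.2.2.1) (fun t => t.2.1)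
    (fun t => t.1 + t.2.1) (fun t => t.2.2) (fun t => t.1 + t.2.2)
    (inj_of _ _ _ (fun u v _ => v - u) (fun u _ _ => u) (fun _ _ w => w) (fun _ => by simp))
    (fun t => by linear_combination (-1 : V n) * s2 t.2.1)
  have q2 := quad_sum hR a c d f (fun x => (pt x).2.2.2.2.2.2.2.2.1) (fun t => t.1)
    (fun t => t.1 + t.2.1) (fun t => t.2.2) (fun t => t.2.1 + t.2.2)
    (inj_of _ _ _ (fun u _ _ => u) (fun u v _ => v - u) (fun _ _ w => w) (fun _ => by simp))
    (fun t => by linear_combination (-1 : V n) * s2 t.1)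
  have q3 := quad_sum hR a b d g (fun x => (pt x).2.2.2.2.2.2.2.2.2.1) (fun t => t.1)
    (fun t => t.2.1) (fun t => t.2.2) (fun t => t.1 + t.2.1 + t.2.2)
    (inj_of _ _ _ (fun u _ _ => u) (fun _ v _ => v) (fun _ _ w => w) (fun _ => by simp))
    (fun _ => rfl)
  have q4 := quad_sum hR a b e f (fun x => (pt x).2.2.2.2.2.2.2.2.2.2.1) (fun t => t.1)
    (fun t => t.2.1) (fun t => t.1 + t.2.2) (fun t => t.2.1 + t.2.2)
    (inj_of _ _ _ (fun u _ _ => u) (fun _ v _ => v) (fun u _ w => w - u) (fun _ => by simp))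
    (fun t => by linear_combination (-1 : V n) * s2 t.1)
  have q5 := quad_sum hR a c e g (fun x => (pt x).2.2.2.2.2.2.2.2.2.2.2.1) (fun t => t.1)
    (fun t => t.1 + t.2.1) (fun t => t.1 + t.2.2) (fun t => t.1 + t.2.1 + t.2.2)
    (inj_of _ _ _ (fun u _ _ => u) (fun u v _ => v - u) (fun u _ w => w - u) (fun _ => by simp))
    (fun t => by linear_combination (-1 : V n) * s2 t.1)
  have q6 := quad_sum hR b c f g (fun x => (pt x).2.2.2.2.2.2.2.2.2.2.2.2.1) (fun t => t.2.1)
    (fun t => t.1 + t.2.1) (fun t => t.2.1 + t.2.2) (fun t => t.1 + t.2.1 + t.2.2)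
    (inj_of _ _ _ (fun u v _ => v - u) (fun u _ _ => u) (fun u _ w => w - u) (fun _ => by simp))
    (fun t => by linear_combination (-1 : V n) * s2 t.2.1)
  have q7 := quad_sum hR d e f g (fun x => (pt x).2.2.2.2.2.2.2.2.2.2.2.2.2) (fun t => t.2.2)
    (fun t => t.1 + t.2.2) (fun t => t.2.1 + t.2.2) (fun t => t.1 + t.2.1 + t.2.2)
    (inj_of _ _ _ (fun u v _ => v - u) (fun u _ w => w - u) (fun u _ _ => u) (fun _ => by simp))
    (fun t => by linear_combination (-1 : V n) * s2 t.2.2)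
  have s7 := seven_sum hn hR a b c d e f g ha hb hc hd he hf eg
  rw [l1, l2, l3, l4, l5, l6, l7, q1, q2, q3, q4, q5, q6, q7] at z1
  have c0 : ∑ _t : V n × V n × V n, (1 : ℝ) = R ^ 6 := by
    rw [Finset.sum_const, Finset.card_univ, nsmul_eq_mul, Fintype.card_prod, Fintype.card_prod]
    push_cast
    rw [card_V, ← hR]; ring
  rw [c0] at z1
  obtain ⟨s8, s9⟩ := abs_le.mp s7
  have r4 : 0 < R ^ 4 := by positivity
  have r5 : 0 < R ^ 5 := by positivity
  have r6 : 16 * R ^ 5 ≤ R ^ 6 := by nlinarith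
  rcases sq_one hε with rfl | rfl <;> linarith

end
end Pool.Agent.Lib.MP_7d7944_co.Three
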